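import Pool.Agent.Q44.TJ.Pos
import Pool.Agent.Q44.TI.Law

/-!
# The joint law on the class of the integers with a prescribed value of the additive function
-/

set_option autoImplicit false

open scoped Classical
open Finset Filter

namespace Q44.TJ

open Q283.GM

variable {F : Type} [Fintype F] [AddCommGroup F]

/-- the corank only depends on the active primes of the set -/
theorem rk_congr {Φ Φ' : Fam} {S : Finset ℕ} (f : ℕ → ZMod 2) (h : ∀ p ∈ S, Φ.A p ↔ Φ'.A p) :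
    rk Φ f S = rk Φ' f S := by
  have e : Kr Φ f S = Kr Φ' f S := by
    ext x
    rw [mem_Kr, mem_Kr]
    refine and_congr (forall_congr' fun p => ?_) (forall_congr' fun p => forall_congr' fun hp => ?_)
    · by_cases hp : p ∈ S
      · simp only [hp, h p hp, true_and]
      · simp only [hp, false_and, not_false_eq_true, true_imp_iff]
    · rw [h p hp]
  unfold rk
  rw [e]

theorem cardS {α : Type} {P Q : α → Prop} {iP : DecidablePred P} {iQ : DecidablePred Q}
    (h : ∀ p, P p ↔ Q p) (s : Finset α) : (s.filter P).card = (s.filter Q).card := by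
  congr 1
  ext p
  rw [mem_filter, mem_filter, h]

/-- the numbers of the class -/
def CD (Φ : Fam) (D : ℕ) : Prop := Squarefree D ∧ ∀ p ∈ D.primeFactors, Φ.P p

theorem card_CD (Φ : Fam) (X : ℕ) (Q : Finset ℕ → Prop) :
    ((Icc 1 X).filter fun D : ℕ => CD Φ D ∧ Q D.primeFactors).card = ((SS Φ X).filter Q).card := by
  rw [← card_eq Φ X Q]
  refine Q44.TI.cardf (fun D => ?_) _
  unfold CD
  rw [and_assoc]

/-- **the joint law for the numbers of the class with a prescribed value of `h`** -/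
theorem law_D (hF : ∀ x : F, x + x = 0) {Φ : Fam} {δ : ℝ} (hΦ : Ok Φ δ) {M : ℕ} (r : Fin M → ℕ)
    (f : Fin M → ℕ → ZMod 2) (W : Finset ℕ) (U : Fin M → Finset ℕ) (hW : OkU W U)
    (hHM : ∀ k l, k ≠ l → HM fun p => Φ.A p ∧ sep f U k l p ≠ 0) (h : ℕ → F) {c₀ : F}
    (hc₀ : Rch Φ h c₀) :
    Tendsto (fun X : ℕ => (((Icc 1 X).filter fun D : ℕ => (CD Φ D ∧ GT h c₀ D.primeFactors) ∧
        ∀ k, rk Φ (f k) (symmDiff D.primeFactors (U k)) = r k).card : ℝ) /
      (((Icc 1 X).filter fun D : ℕ => CD Φ D ∧ GT h c₀ D.primeFactors).card : ℝ)) atTop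
      (nhds (cR r)) := by
  refine (law_T hF hΦ r f W U hW hHM h hc₀).congr fun X => ?_
  have e1 : ((SS Φ X).filter fun S => GT h c₀ S ∧ GdR Φ r f U S).card =
      ((Icc 1 X).filter fun D : ℕ => (CD Φ D ∧ GT h c₀ D.primeFactors) ∧
        ∀ k, rk Φ (f k) (symmDiff D.primeFactors (U k)) = r k).card := by
    refine Eq.trans ?_ ((card_CD Φ X (fun S => GT h c₀ S ∧ GdR Φ r f U S)).symm.trans ?_)
    · exact cardS (fun _ => Iff.rfl) _
    · refine cardS (fun D => ?_) _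
      rw [and_assoc]
      exact Iff.rfl
  have e2 : ((SS Φ X).filter fun S => GT h c₀ S).card =
      ((Icc 1 X).filter fun D : ℕ => CD Φ D ∧ GT h c₀ D.primeFactors).card := by
    refine Eq.trans ?_ ((card_CD Φ X (fun S => GT h c₀ S)).symm.trans ?_)
    · exact cardS (fun _ => Iff.rfl) _
    · exact cardS (fun _ => Iff.rfl) _
  rw [e1, e2]

/-- the positive proportion -/
theorem pos_D (hF : ∀ x : F, x + x = 0) {Φ : Fam} {δ : ℝ} (hΦ : Ok Φ δ) (h : ℕ → F) {c₀ : F}
    (hc₀ : Rch Φ h c₀) : ∃ (η : ℝ) (X₀ : ℕ), 0 < η ∧ ∀ X : ℕ, X₀ ≤ X →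
      η * (((Icc 1 X).filter fun D : ℕ => CD Φ D).card : ℝ) ≤
        (((Icc 1 X).filter fun D : ℕ => CD Φ D ∧ GT h c₀ D.primeFactors).card : ℝ) := by
  obtain ⟨η, X₀, hη, hlow⟩ := pos_prop hF hΦ h hc₀
  refine ⟨η, X₀, hη, fun X hX => ?_⟩
  have h1 := hlow X hX
  have e2 := card_CD Φ X (fun _ => True)
  rw [Finset.filter_true] at e2
  simp only [and_true] at e2
  rw [e2]
  refine h1.trans (le_of_eq ?_)
  congr 1
  refine Eq.trans ?_ ((card_CD Φ X (fun S => GT h c₀ S)).symm.trans ?_)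
  · exact cardS (fun _ => Iff.rfl) _
  · exact cardS (fun _ => Iff.rfl) _

/-- the size of the class -/
theorem size_D {Φ : Fam} {δ : ℝ} (hΦ : Ok Φ δ) : ∃ (c : ℝ) (X₀ : ℕ), 0 < c ∧ ∀ X : ℕ, X₀ ≤ X →
    c * X * (Real.log X) ^ (-1 + δ : ℝ) ≤ (((Icc 1 X).filter fun D : ℕ => CD Φ D).card : ℝ) := by
  obtain ⟨c, X₀, h1, h2⟩ := hΦ.low
  refine ⟨c, X₀, h1, fun X hX => (h2 X hX).trans (le_of_eq ?_)⟩
  have e2 := card_CD Φ X (fun _ => True)
  rw [Finset.filter_true] at e2
  simp only [and_true] at e2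
  rw [e2]

end Q44.TJ
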