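import Pool.Agent.Q44.TJ.Key
import Pool.Agent.Q283.GM.ASY

/-!
# The joint law of the coranks together with the values of an additive function: the asymptotics
(after `Pool.Agent.Q283.GM.ASY`)
-/

set_option autoImplicit false

open scoped Classical
open Finset Filter

namespace Q44.TJ

open Pool.Agent.Y703.CX (sm la jj XX eL zz kk S_SIE eL_tendsto logX_eq rpow_eL HH NN ev_eL one_le_exp
  HH_ge HH_le HH_pos kk_ge kk_le X_pos one_add_log lin_le kap zz_ge zz_pos kap_nonneg kap_pow kap_le)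
open Pool.Agent.Y703.CQ (Sml sml_of sml_add sml_rpow cmp c2)
open Pool.Agent.Y687.JQ (sml_mainJ sml_sum)
open Q283.GM

variable {F : Type} [Fintype F] [AddCommGroup F]

/-- **the joint law of the coranks, conditional on the value of an additive function** -/
theorem t_DQT {Φ : Fam} {δ : ℝ} (hΦ : Ok Φ δ) {M : ℕ} (r : Fin M → ℕ) (f : Fin M → ℕ → ZMod 2)
    (W : Finset ℕ) (U : Fin M → Finset ℕ) (hW : OkU W U)
    (hHM : ∀ k l, k ≠ l → HM fun p => Φ.A p ∧ sep f U k l p ≠ 0) (h : ℕ → F) (c₀ : F) :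
    Tendsto (fun X : ℕ => ((((SS Φ X).filter fun S => GT h c₀ S ∧ GdR Φ r f U S).card : ℝ) -
      cR r * (((SS Φ X).filter fun S => GT h c₀ S).card : ℝ)) / ((SS Φ X).card : ℝ))
      atTop (nhds 0) := by
  obtain ⟨c, X₀, hc, hlow⟩ := hΦ.low
  have hdp := hΦ.pos
  rw [Metric.tendsto_nhds]
  intro ε hε
  obtain ⟨R, C, hC1, hkey⟩ := t_KEYT (F := F) Φ M r (ε / 4) (by linarith)
  set V : ℕ := 2 * W.card + R with hV
  have s1 := sml_many Φ (t := 1 - δ) (by linarith)
  have s2 := sml_cut Φ (t := 1 - δ) (by linarith)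
  have s3 := sml_coll Φ (t := 1 - δ) (by linarith)
  have s4 := sml_few hΦ (w := Φ.A) (fun p h => Or.inl h) hΦ.act (V + 1)
  have s4' := sml_few hΦ (w := Φ.B) (fun p h => Or.inr h) hΦ.pas 1
  have s5 := sml_bad hΦ (E := W) fun u hu => (hW.1 u hu).1
  have s6 := sml_mainJ hC1 (t := 1 - δ) (by linarith)
  have s7 : Sml (1 - δ) fun X => ∑ e ∈ prU M,
      ((few Φ X (zz X) V fun p => Φ.A p ∧ sep f U e.1 e.2 p ≠ 0).card : ℝ) := by
    refine sml_sum _ _ fun e he => ?_
    unfold prU at he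
    rw [mem_filter] at he
    exact sml_few hΦ (fun p h => Or.inl h.1) (hHM _ _ he.2) V
  have s := sml_add (sml_add (sml_add (sml_add (sml_add (sml_add (sml_add s1 s2) s3) s4) s4') s5)
    s6) s7
  have hδ : (0 : ℝ) < c * ε / 4 := by positivity
  obtain ⟨WB, hWB⟩ : ∃ B : ℕ, ∀ u ∈ W, u ≤ B := ⟨W.sup id, fun u hu => Finset.le_sup (f := id) hu⟩
  have hzt : ∀ᶠ X : ℕ in atTop, WB ≤ zz X := by
    filter_upwards [ev_eL (WB + 1)] with X hX
    have h0 : (1 : ℝ) ≤ eL X := by
      have : (0 : ℝ) ≤ WB := Nat.cast_nonneg _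
      linarith
    unfold zz
    apply Nat.le_floor
    have h2 : (WB : ℝ) ≤ (eL X) ^ 3 := by
      have h3 : (1 : ℝ) * eL X ≤ (eL X) ^ 2 * eL X := by
        apply mul_le_mul_of_nonneg_right _ (by linarith)
        nlinarith
      have h4 : (eL X) ^ 3 = (eL X) ^ 2 * eL X := by ring
      linarith
    have h3 := Real.add_one_le_exp ((eL X) ^ 3)
    linarith
  have hkt : ∀ n : ℕ, ∀ᶠ X : ℕ in atTop, n ≤ kk X := by
    intro n
    filter_upwards [ev_eL (n + 1)] with X hX
    have h2 := kk_ge X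
    have h0 : (0 : ℝ) ≤ n := Nat.cast_nonneg _
    have : (n : ℝ) ≤ kk X := by linarith
    exact_mod_cast this
  filter_upwards [s (c * ε / 4) hδ, ev_eL 1, eventually_ge_atTop X₀, hzt, hkt W.card,
    hkt M, hkt (Fintype.card F)] with X hX hl hX0 hz hk hkM hkF
  have hl0 : 0 < eL X := by linarith
  have hlo := hlow X hX0
  have e00 : (-1 + δ : ℝ) = -(1 - δ) := by ring
  rw [e00, rpow_eL hl0] at hlo
  have hXp := X_pos hl0
  have hXp' : (0 : ℝ) < X := by exact_mod_cast hXp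
  have hSpos : (0 : ℝ) < ((SS Φ X).card : ℝ) := by
    refine lt_of_lt_of_le ?_ hlo
    positivity
  have hN : (HH X : ℝ) * Real.log X < NN X := by
    unfold NN
    push_cast
    exact Nat.lt_floor_add_one _
  have hmain := hkey h c₀ f X (zz X) (HH X) (kk X) V (NN X) (kap C X) W U hW
    (fun u hu => (hWB u hu).trans hz) hk hkM hkF hXp (HH_pos hl0) (zz_pos hl)
    (kap_nonneg hC1 X) (kap_pow hC1 hl) hN
  set T := (RR Φ X (zz X) (HH X) (kk X) V).filter fun S =>
    NdF Φ R W f U (sm (zz X) S) (la (zz X) S) with hT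
  set T' := (RR Φ X (zz X) (HH X) (kk X) V).filter fun S =>
    NdF Φ R W f U (sm (zz X) S) (la (zz X) S) ∧ GT h c₀ S with hT'
  have hTG : (RR Φ X (zz X) (HH X) (kk X) V).filter
      (fun S => (NdF Φ R W f U (sm (zz X) S) (la (zz X) S) ∧ GT h c₀ S) ∧ GdR Φ r f U S) =
        T'.filter (GdR Φ r f U) := by
    rw [hT', filter_filter]
  rw [hTG] at hmain
  have hT2 : T' = T.filter fun S => GT h c₀ S := by
    rw [hT', hT, filter_filter]
  have hTS : T ⊆ SS Φ X := (filter_subset _ _).trans (filter_subset _ _)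
  have hTS' : T' ⊆ (SS Φ X).filter fun S => GT h c₀ S := by
    rw [hT2]
    exact filter_subset_filter _ hTS
  have hRS : ((RR Φ X (zz X) (HH X) (kk X) V).card : ℝ) ≤ ((SS Φ X).card : ℝ) := by
    exact_mod_cast card_le_card (filter_subset _ _)
  have hcmp := cmp (GdR Φ r f U) T' ((SS Φ X).filter fun S => GT h c₀ S) hTS' (cR r)
    (cR_nonneg r) (cR_le_one r)
  have hsd : ((((SS Φ X).filter fun S => GT h c₀ S) \ T').card : ℝ) ≤ ((SS Φ X \ T).card : ℝ) := by
    have : ((SS Φ X).filter fun S => GT h c₀ S) \ T' ⊆ SS Φ X \ T := by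
      intro S hS
      rw [Finset.mem_sdiff, Finset.mem_filter] at hS
      rw [Finset.mem_sdiff]
      refine ⟨hS.1.1, fun h' => hS.2 ?_⟩
      rw [hT2, Finset.mem_filter]
      exact ⟨h', hS.1.2⟩
    exact_mod_cast card_le_card this
  have hout : ((SS Φ X \ T).card : ℝ) ≤
      ((((SS Φ X).filter fun S => kk X < S.card).card : ℝ) +
      (((SS Φ X).filter fun S => S.card ≤ kk X ∧
        X < (∏ p ∈ sm (zz X) S, p) * ∏ p ∈ la (zz X) S, XX (HH X) (jj (HH X) p)).card : ℝ) +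
      (((SS Φ X).filter fun S => ¬ Set.InjOn (jj (HH X)) (la (zz X) S : Set ℕ)).card : ℝ) +
      ((few Φ X (zz X) (V + 1) Φ.A).card : ℝ) + ((few Φ X (zz X) 1 Φ.B).card : ℝ)) +
      (((SS Φ X).filter fun S => S.card ≤ kk X ∧
        ¬ Nd Φ (sm (zz X) S ∪ W) (la (zz X) S)).card : ℝ) +
      ∑ e ∈ prU M, ((few Φ X (zz X) V fun p => Φ.A p ∧ sep f U e.1 e.2 p ≠ 0).card : ℝ) := by
    have g := card_le_card (out_subF Φ W f U X (zz X) (HH X) (kk X) R)
    rw [← hV, ← hT] at g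
    have g3 := Finset.card_biUnion_le (s := prU M)
      (t := fun e => few Φ X (zz X) V fun p => Φ.A p ∧ sep f U e.1 e.2 p ≠ 0)
    have g2 := ((g.trans (card_union_le _ _)).trans (Nat.add_le_add_right
      ((card_union_le _ _).trans (Nat.add_le_add_right ((card_union_le _ _).trans
      (Nat.add_le_add_right ((card_union_le _ _).trans
      (Nat.add_le_add_right ((card_union_le _ _).trans
      (Nat.add_le_add_right (card_union_le _ _) _)) _)) _)) _)) _)).trans (Nat.add_le_add_left g3 _)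
    exact_mod_cast g2
  have hGG : ((SS Φ X).filter fun S => GT h c₀ S ∧ GdR Φ r f U S) =
      ((SS Φ X).filter fun S => GT h c₀ S).filter (GdR Φ r f U) := by
    rw [filter_filter]
  have htot : |(((SS Φ X).filter fun S => GT h c₀ S ∧ GdR Φ r f U S).card : ℝ) -
      cR r * (((SS Φ X).filter fun S => GT h c₀ S).card : ℝ)| ≤
      ε / 4 * ((SS Φ X).card : ℝ) +
        c * ε / 4 * (X * Real.exp (-(1 - δ) * eL X)) := by
    have g1 : ε / 4 * ((RR Φ X (zz X) (HH X) (kk X) V).card : ℝ) ≤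
        ε / 4 * ((SS Φ X).card : ℝ) := mul_le_mul_of_nonneg_left hRS (by positivity)
    change _ + ((few Φ X (zz X) (V + 1) Φ.A).card : ℝ) + ((few Φ X (zz X) 1 Φ.B).card : ℝ) +
      _ + _ + _ ≤ _ at hX
    rw [hGG]
    linarith
  rw [Real.dist_eq, sub_zero, abs_div, abs_of_pos hSpos, div_lt_iff₀ hSpos]
  refine lt_of_le_of_lt htot ?_
  have g2 : c * ε / 4 * (X * Real.exp (-(1 - δ) * eL X)) ≤ ε / 4 * ((SS Φ X).card : ℝ) := by
    calc c * ε / 4 * (X * Real.exp (-(1 - δ) * eL X)) =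
          ε / 4 * (c * X * Real.exp (-(1 - δ) * eL X)) := by ring
      _ ≤ _ := mul_le_mul_of_nonneg_left hlo (by linarith)
  have g4 : 0 < ε * ((SS Φ X).card : ℝ) := by positivity
  linarith

end Q44.TJ
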