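import Pool.Agent.Q283.GM.KEY

/-!
# The joint law of the coranks together with the values of an additive function: the boxes

`h` is an arbitrary function of the primes with values in a finite group, and the sum of the values of `h`
over the primes of the set is prescribed.
-/

set_option autoImplicit false

open scoped Classical

namespace Q44.TJ

open Finset
open Pool.Agent.Y703.CX (sm la jj XX)
open Pool.Agent.Y703.CQ (nr sg prs HB c2)
open Pool.Agent.Y703.CQ.K302 (le_XX sm_la_card sm_la_prod root12 prs_card card_sub TT mem_TT harm_TT)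
open Pool.Agent.Y657.CQ (HB_sub)
open Q283.GM

variable {F : Type} [Fintype F] [AddCommGroup F]

/-- the value of the additive function `h` on the set -/
def GT (h : ℕ → F) (c : F) (S : Finset ℕ) : Prop := ∑ p ∈ S, h p = c

/-- the joint count in a box with the additive function -/
theorem box_T {Φ : Fam} {M : ℕ} {r : Fin M → ℕ} {ε : ℝ} {R : ℕ} (hε : 0 < ε)
    (hBOX : BX Φ M r ε R) (h : ℕ → F) (c : F)
    (f : Fin M → ℕ → ZMod 2) (ι : Type) [Fintype ι] [inst : DecidableEq ι]
    (lo : LinearOrder ι) (J1 : Finset ι) (C : ι → Finset ℕ) (X : ι → ℕ) (κ : ℝ)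
    (S₀ W : Finset ℕ) (U : Fin M → Finset ℕ) (g2 : ∀ k, U k ⊆ W)
    (h1 : 0 ≤ κ) (h2 : ∀ i, (C i).card ≤ X i) (h3 : HB J1 C X κ)
    (h4 : ∀ u ∈ S₀ ∪ W, u.Prime ∧ u ≠ 2)
    (h5 : ∀ i, ∀ p ∈ C i, p.Prime ∧ p ≠ 2 ∧ p ∉ S₀ ∪ W ∧ (i ∈ J1 ↔ Φ.A p))
    (h6 : ∀ i l, i ≠ l → Disjoint (C i) (C l)) (h7 : ∃ i, i ∉ J1) :
    |(((Fintype.piFinset C).filter fun p => (NdF Φ R W f U S₀ (univ.image p) ∧
        GT h c (S₀ ∪ univ.image p)) ∧ GdR Φ r f U (S₀ ∪ univ.image p)).card : ℝ) -
      cR r * (((Fintype.piFinset C).filter fun p => NdF Φ R W f U S₀ (univ.image p) ∧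
        GT h c (S₀ ∪ univ.image p)).card : ℝ)| ≤
    ε * (((Fintype.piFinset C).filter fun p => NdF Φ R W f U S₀ (univ.image p)).card : ℝ) +
    (Fintype.card F : ℝ) ^ (Fintype.card ι) *
      (2 ^ ((2 * (S₀ ∪ W).card + M) * Fintype.card ι + (prs J1).card) * (κ * ∏ j, (X j : ℝ))) := by
  set Er : ℝ := 2 ^ ((2 * (S₀ ∪ W).card + M) * Fintype.card ι + (prs J1).card) *
    (κ * ∏ j, (X j : ℝ)) with hEr
  have hEr0 : 0 ≤ Er := mul_nonneg (by positivity)
    (mul_nonneg h1 (Finset.prod_nonneg fun j _ => by positivity))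
  have hinj : ∀ p ∈ Fintype.piFinset C, Function.Injective p := by
    intro p hp i j hij
    rw [Fintype.mem_piFinset] at hp
    by_contra hne
    have h1 := Finset.disjoint_left.1 (h6 i j hne) (hp i)
    rw [hij] at h1
    exact h1 (hp j)
  have hsum : ∀ p ∈ Fintype.piFinset C, ∑ q ∈ S₀ ∪ univ.image p, h q =
      ∑ q ∈ S₀, h q + ∑ i, h (p i) := by
    intro p hp
    rw [Finset.sum_union, Finset.sum_image fun i _ j _ hij => hinj p hp hij]
    rw [Finset.disjoint_left]
    intro q hq hq'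
    obtain ⟨i, -, rfl⟩ := Finset.mem_image.1 hq'
    rw [Fintype.mem_piFinset] at hp
    exact (h5 i _ (hp i)).2.2.1 (Finset.mem_union_left _ hq)
  set LL : Finset (ι → F) := univ.filter fun a => ∑ q ∈ S₀, h q + ∑ i, a i = c with hLL
  have hfib : ∀ T : (ι → ℕ) → Prop,
      (((Fintype.piFinset C).filter fun p => (NdF Φ R W f U S₀ (univ.image p) ∧
        GT h c (S₀ ∪ univ.image p)) ∧ T p).card : ℝ) =
      ∑ a ∈ LL, (((Fintype.piFinset fun i => (C i).filter fun q => h q = a i).filter fun p =>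
        NdF Φ R W f U S₀ (univ.image p) ∧ T p).card : ℝ) := by
    intro T
    rw [Finset.card_eq_sum_card_fiberwise (f := fun (p : ι → ℕ) (i : ι) => h (p i))
      (t := LL) (by
        intro p hp
        rw [Finset.mem_coe, Finset.mem_filter] at hp
        rw [Finset.mem_coe, hLL, Finset.mem_filter]
        refine ⟨Finset.mem_univ _, ?_⟩
        rw [← hsum p hp.1]
        exact hp.2.1.2)]
    push_cast
    refine Finset.sum_congr rfl fun a ha => ?_
    rw [hLL, Finset.mem_filter] at ha
    congr 2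
    ext p
    simp only [Finset.mem_filter, Fintype.mem_piFinset]
    constructor
    · rintro ⟨⟨h3, ⟨h4, -⟩, h4'⟩, h5⟩
      exact ⟨fun i => ⟨h3 i, congrFun h5 i⟩, h4, h4'⟩
    · rintro ⟨h3, h5, h5'⟩
      have h3' : p ∈ Fintype.piFinset C := Fintype.mem_piFinset.2 fun i => (h3 i).1
      refine ⟨⟨fun i => (h3 i).1, ⟨h5, ?_⟩, h5'⟩, funext fun i => (h3 i).2⟩
      unfold GT
      rw [hsum p h3', ← ha.2]
      congr 1
      exact Finset.sum_congr rfl fun i _ => (h3 i).2
  have hf1 := hfib fun p => GdR Φ r f U (S₀ ∪ univ.image p)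
  have hf2 := hfib fun _ => True
  simp only [and_true] at hf2
  rw [hf1, hf2, Finset.mul_sum, ← Finset.sum_sub_distrib]
  refine (Finset.abs_sum_le_sum_abs _ _).trans ?_
  have hone : ∀ a ∈ LL,
      |(((Fintype.piFinset fun i => (C i).filter fun q => h q = a i).filter fun p =>
        NdF Φ R W f U S₀ (univ.image p) ∧ GdR Φ r f U (S₀ ∪ univ.image p)).card : ℝ) -
      cR r * (((Fintype.piFinset fun i => (C i).filter fun q => h q = a i).filter fun p =>
        NdF Φ R W f U S₀ (univ.image p)).card : ℝ)| ≤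
      ε * (((Fintype.piFinset fun i => (C i).filter fun q => h q = a i).filter fun p =>
        NdF Φ R W f U S₀ (univ.image p)).card : ℝ) + Er := by
    intro a _
    exact box_dec hBOX f ι lo J1 (fun i => (C i).filter fun q => h q = a i) X κ S₀ W U g2 h1
      (fun i => (Finset.card_le_card (Finset.filter_subset _ _)).trans (h2 i))
      (HB_sub h3 fun i q => h q = a i) h4
      (fun i p hp => h5 i p (Finset.mem_filter.1 hp).1)
      (fun i l hil => Finset.disjoint_filter_filter (h6 i l hil)) h7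
  refine (Finset.sum_le_sum hone).trans ?_
  rw [Finset.sum_add_distrib, ← Finset.mul_sum, Finset.sum_const, nsmul_eq_mul]
  refine add_le_add ?_ ?_
  · refine mul_le_mul_of_nonneg_left ?_ hε.le
    rw [← hf2]
    have : ((Fintype.piFinset C).filter fun p => NdF Φ R W f U S₀ (univ.image p) ∧
        GT h c (S₀ ∪ univ.image p)) ⊆
        (Fintype.piFinset C).filter fun p => NdF Φ R W f U S₀ (univ.image p) := by
      intro p hp
      rw [Finset.mem_filter] at hp ⊢
      exact ⟨hp.1, hp.2.1⟩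
    exact_mod_cast Finset.card_le_card this
  · refine mul_le_mul_of_nonneg_right ?_ hEr0
    have h6 : LL.card ≤ Fintype.card (ι → F) := Finset.card_le_univ _
    rw [Fintype.card_fun] at h6
    exact_mod_cast h6

end Q44.TJ
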