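import Pool.Agent.Q44.TJ.Box

/-!
# The joint law of the coranks together with the values of an additive function: the sum over the boxes
(after `Pool.Agent.Q283.GM.KEY`)
-/

set_option autoImplicit false

open scoped Classical

namespace Q44.TJ

open Finset
open Pool.Agent.Y703.CX (sm la jj XX)
open Pool.Agent.Y703.CQ (nr sg prs HB c2)
open Pool.Agent.Y703.CQ.K302 (le_XX sm_la_card sm_la_prod root12 prs_card card_sub TT mem_TT harm_TT)
open Q283.GM

variable {F : Type} [Fintype F] [AddCommGroup F]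

theorem per_T {Φ : Fam} {M : ℕ} {r : Fin M → ℕ} {ε : ℝ} {R : ℕ} (hε : 0 < ε)
    (hBOX : BX Φ M r ε R) (h : ℕ → F) (c : F) (f : Fin M → ℕ → ZMod 2)
    {X z H k V : ℕ} (hH : 1 ≤ H)
    {κ : ℝ} (hκ : 0 ≤ κ) {W : Finset ℕ} {U : Fin M → Finset ℕ} (g1 : M ≤ k)
    (g2 : OkU W U) (g3 : ∀ u ∈ W, u ≤ z) (g4 : W.card ≤ k) (g5 : Fintype.card F ≤ k)
    {S₀ : Finset ℕ} {J : Finset (ℕ × ℕ)} (hk : KP Φ X z H k V S₀ J)
    (hHB : HB (univ.filter fun e : J => e.1.2 = 1) (fun i : J => CC Φ z H i)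
      (fun i => XX H i.1.1) κ) :
    |(((RR Φ X z H k V).filter fun S => ky Φ z H S = (S₀, J) ∧
        ((NdF Φ R W f U (sm z S) (la z S) ∧ GT h c S) ∧ GdR Φ r f U S)).card : ℝ) -
      cR r * (((RR Φ X z H k V).filter fun S => ky Φ z H S = (S₀, J) ∧
        (NdF Φ R W f U (sm z S) (la z S) ∧ GT h c S)).card : ℝ)| ≤
    ε * (((RR Φ X z H k V).filter fun S => ky Φ z H S = (S₀, J)).card : ℝ) +
      (3 ^ (6 * k ^ 2) * κ) * (X / ((∏ p ∈ S₀, p : ℕ) : ℝ)) := by
  set J1 : Finset J := univ.filter fun e : J => e.1.2 = 1 with hJ1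
  have hinj : Function.Injective (fun i : J => i.1.1) := by
    intro a b hab
    exact Subtype.ext (hk.inj (Finset.mem_coe.2 a.2) (Finset.mem_coe.2 b.2) hab)
  let lo : LinearOrder J := LinearOrder.lift' (fun i : J => i.1.1) hinj
  have hbox := box_T hε hBOX h c f J lo J1 (fun i => CC Φ z H i) (fun i => XX H i.1.1) κ S₀ W U
    g2.2 hκ
    (fun i => by
      refine (Finset.card_filter_le _ _).trans ?_
      rw [Nat.card_Icc]
      omega)
    hHB (fun u hu => by
      rcases Finset.mem_union.1 hu with hu | hu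
      · exact ⟨(hk.cl u hu).prime, Fam.ne_two (hk.cl u hu)⟩
      · exact ⟨(g2.1 u hu).1, (g2.1 u hu).2⟩)
    (fun i p hp => by
      obtain ⟨h3, h3', h4, h5⟩ := CC_facts hH hp
      refine ⟨h3.prime, Fam.ne_two h3, fun h => ?_, ?_⟩
      · rcases Finset.mem_union.1 h with h | h
        · have := hk.le p h
          omega
        · have := g3 p h
          omega
      · rw [hJ1, Finset.mem_filter, ← h5]
        simp)
    (fun i l hil => CC_disj hH i l hil)
    (by
      obtain ⟨e, he, h1⟩ := hk.ine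
      exact ⟨⟨e, he⟩, fun h => h1 (Finset.mem_filter.1 h).2⟩)
  have e1 : ((Fintype.piFinset fun i : J => CC Φ z H i).filter fun p =>
      (NdF Φ R W f U S₀ (univ.image p) ∧ GT h c (S₀ ∪ univ.image p)) ∧
        GdR Φ r f U (S₀ ∪ univ.image p)).card =
      ((RR Φ X z H k V).filter fun S => ky Φ z H S = (S₀, J) ∧
        ((NdF Φ R W f U (sm z S) (la z S) ∧ GT h c S) ∧ GdR Φ r f U S)).card := by
    rw [← key_bij hH hk
      (fun S => (NdF Φ R W f U (sm z S) (la z S) ∧ GT h c S) ∧ GdR Φ r f U S)]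
    congr 1
    refine Finset.filter_congr fun p hp => ?_
    rw [Fintype.mem_piFinset] at hp
    rw [sm_fill hH hk.le hp, la_fill hH hk.le hp]
  have e2 : ((Fintype.piFinset fun i : J => CC Φ z H i).filter fun p =>
      NdF Φ R W f U S₀ (univ.image p) ∧ GT h c (S₀ ∪ univ.image p)).card =
      ((RR Φ X z H k V).filter fun S => ky Φ z H S = (S₀, J) ∧
        (NdF Φ R W f U (sm z S) (la z S) ∧ GT h c S)).card := by
    rw [← key_bij hH hk (fun S => NdF Φ R W f U (sm z S) (la z S) ∧ GT h c S)]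
    congr 1
    refine Finset.filter_congr fun p hp => ?_
    rw [Fintype.mem_piFinset] at hp
    rw [sm_fill hH hk.le hp, la_fill hH hk.le hp]
  have e3 : ((Fintype.piFinset fun i : J => CC Φ z H i).filter fun p =>
      NdF Φ R W f U S₀ (univ.image p)).card =
      ((RR Φ X z H k V).filter fun S => ky Φ z H S = (S₀, J) ∧
        NdF Φ R W f U (sm z S) (la z S)).card := by
    rw [← key_bij hH hk (fun S => NdF Φ R W f U (sm z S) (la z S))]
    congr 1
    refine Finset.filter_congr fun p hp => ?_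
    rw [Fintype.mem_piFinset] at hp
    rw [sm_fill hH hk.le hp, la_fill hH hk.le hp]
  rw [e1, e2, e3] at hbox
  refine hbox.trans (add_le_add ?_ ?_)
  · have h4 : (((RR Φ X z H k V).filter fun S => ky Φ z H S = (S₀, J) ∧
        NdF Φ R W f U (sm z S) (la z S)).card : ℝ) ≤
        (((RR Φ X z H k V).filter fun S => ky Φ z H S = (S₀, J)).card : ℝ) := by
      have : (RR Φ X z H k V).filter (fun S => ky Φ z H S = (S₀, J) ∧
          NdF Φ R W f U (sm z S) (la z S)) ⊆
          (RR Φ X z H k V).filter fun S => ky Φ z H S = (S₀, J) := by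
        intro S hS
        rw [Finset.mem_filter] at hS ⊢
        exact ⟨hS.1, hS.2.1⟩
      exact_mod_cast Finset.card_le_card this
    gcongr
  · have hcJ : Fintype.card J = J.card := Fintype.card_coe J
    have hcard := hk.card
    have hJK : J.card ≤ k := by omega
    have hSK : S₀.card ≤ k := by omega
    have hSW : (S₀ ∪ W).card ≤ 2 * k := (Finset.card_union_le _ _).trans (by omega)
    obtain ⟨m, hm⟩ : ∃ m : ℕ, m = (@prs J _ lo J1).card := ⟨_, rfl⟩
    have hpr : m ≤ k * k := by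
      rw [hm]
      refine (@prs_card J _ lo J1).trans ?_
      rw [hcJ]
      exact Nat.mul_le_mul hJK hJK
    rw [← hm]
    have h5 : (Fintype.card F : ℝ) ^ Fintype.card J *
        (2 : ℝ) ^ ((2 * (S₀ ∪ W).card + M) * Fintype.card J + m) ≤ 3 ^ (6 * k ^ 2) := by
      have hexp : (2 * (S₀ ∪ W).card + M) * Fintype.card J + m ≤ 6 * k ^ 2 := by
        rw [hcJ]
        have h6 : (S₀ ∪ W).card * J.card ≤ 2 * k * k := Nat.mul_le_mul hSW hJK
        have h7 : M * J.card ≤ k * k := Nat.mul_le_mul g1 hJK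
        calc (2 * (S₀ ∪ W).card + M) * J.card + m = 2 * ((S₀ ∪ W).card * J.card) + M * J.card + m := by
              ring
          _ ≤ 2 * (2 * k * k) + k * k + k * k := by omega
          _ = 6 * k ^ 2 := by ring
      have hF : (Fintype.card F : ℝ) ^ Fintype.card J ≤ 2 ^ (k ^ 2) := by
        have h6 : Fintype.card F ≤ 2 ^ k := g5.trans Nat.lt_two_pow_self.le
        have h7 : (Fintype.card F) ^ Fintype.card J ≤ (2 ^ k) ^ k := by
          refine (Nat.pow_le_pow_left h6 _).trans ?_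
          refine Nat.pow_le_pow_right (by positivity) ?_
          rw [hcJ]
          exact hJK
        rw [← pow_mul, ← sq] at h7
        exact_mod_cast h7
      calc (Fintype.card F : ℝ) ^ Fintype.card J *
          (2 : ℝ) ^ ((2 * (S₀ ∪ W).card + M) * Fintype.card J + m) ≤
            2 ^ (k ^ 2) * 2 ^ (6 * k ^ 2) := by
            refine mul_le_mul hF (pow_le_pow_right₀ (by norm_num) hexp) (by positivity)
              (by positivity)
        _ = (2 ^ 7) ^ (k ^ 2) := by
            rw [← pow_add, ← pow_mul]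
            congr 1
            ring
        _ ≤ (3 ^ 6) ^ (k ^ 2) := by
            apply pow_le_pow_left₀ <;> norm_num
        _ = _ := by rw [← pow_mul]
    have hN0 : (0 : ℝ) < ((∏ p ∈ S₀, p : ℕ) : ℝ) := by
      exact_mod_cast Finset.prod_pos fun p hp => (hk.cl p hp).prime.pos
    have hprod : ∏ j : J, (XX H j.1.1 : ℝ) ≤ X / ((∏ p ∈ S₀, p : ℕ) : ℝ) := by
      have h5 : ∏ j : J, (XX H j.1.1 : ℝ) = ((∏ k ∈ J, XX H k.1 : ℕ) : ℝ) := by
        rw [← Finset.prod_coe_sort J (fun k => XX H k.1)]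
        push_cast
        rfl
      rw [h5, le_div_iff₀ hN0, mul_comm]
      exact_mod_cast hk.prod
    have hpn : (0 : ℝ) ≤ ∏ j : J, (XX H j.1.1 : ℝ) := Finset.prod_nonneg fun _ _ => Nat.cast_nonneg _
    calc (Fintype.card F : ℝ) ^ Fintype.card J *
          ((2 : ℝ) ^ ((2 * (S₀ ∪ W).card + M) * Fintype.card J + m) *
        (κ * ∏ j : J, (XX H j.1.1 : ℝ))) = ((Fintype.card F : ℝ) ^ Fintype.card J *
          (2 : ℝ) ^ ((2 * (S₀ ∪ W).card + M) * Fintype.card J + m)) *
        (κ * ∏ j : J, (XX H j.1.1 : ℝ)) := by ring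
      _ ≤ 3 ^ (6 * k ^ 2) * (κ * (X / ((∏ p ∈ S₀, p : ℕ) : ℝ))) := by
          refine mul_le_mul h5 (mul_le_mul_of_nonneg_left hprod hκ) (mul_nonneg hκ hpn)
            (by positivity)
      _ = _ := by ring

/-- **KEY**, with the additive function -/
theorem t_KEYT (Φ : Fam) (M : ℕ) (r : Fin M → ℕ) (ε : ℝ) (hε : 0 < ε) :
    ∃ (R : ℕ) (C : ℝ), 1 ≤ C ∧
    ∀ (h : ℕ → F) (c : F) (f : Fin M → ℕ → ZMod 2) (X z H k V N : ℕ) (κ : ℝ) (W : Finset ℕ)
    (U : Fin M → Finset ℕ), OkU W U → (∀ u ∈ W, u ≤ z) → W.card ≤ k → M ≤ k →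
    Fintype.card F ≤ k →
    1 ≤ X → 1 ≤ H → 1 ≤ z → 0 ≤ κ → C ≤ κ ^ 12 * z → (H : ℝ) * Real.log X < N →
    |(((RR Φ X z H k V).filter fun S => (NdF Φ R W f U (sm z S) (la z S) ∧ GT h c S) ∧
        GdR Φ r f U S).card : ℝ) -
        cR r * (((RR Φ X z H k V).filter fun S => NdF Φ R W f U (sm z S) (la z S) ∧
          GT h c S).card : ℝ)| ≤
      ε * ((RR Φ X z H k V).card : ℝ) +
      (9 * N + 9 : ℝ) ^ k * (3 ^ (6 * k ^ 2) * κ) * (X * (1 + Real.log X)) := by
  obtain ⟨C₁, hC₁, h1⟩ := t_BIL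
  obtain ⟨R, hR⟩ := t_BOX Φ M r ε hε
  refine ⟨R, C₁, hC₁, ?_⟩
  intro h c f X z H k V N κ W U g2 g3 g4 g1 g5 hX hH hz hκ hκz hN
  set T := (RR Φ X z H k V).image (ky Φ z H) with hT
  set B : ℝ := 3 ^ (6 * k ^ 2) * κ with hB
  have hB0 : 0 ≤ B := by positivity
  have hfib : ∀ (P : Finset ℕ → Prop) [DecidablePred P],
      (((RR Φ X z H k V).filter fun S => P S).card : ℝ) =
      ∑ e ∈ T, (((RR Φ X z H k V).filter fun S => ky Φ z H S = e ∧ P S).card : ℝ) := by
    intro P _
    rw [Finset.card_eq_sum_card_fiberwise (f := ky Φ z H) (t := T) (by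
      intro S hS
      rw [Finset.mem_coe, Finset.mem_filter] at hS
      exact Finset.mem_coe.2 (Finset.mem_image_of_mem _ hS.1))]
    push_cast
    refine Finset.sum_congr rfl fun e _ => ?_
    congr 2
    ext S
    simp only [Finset.mem_filter]
    tauto
  have hKP : ∀ e ∈ T, KP Φ X z H k V e.1 e.2 := by
    intro e he
    rw [hT, Finset.mem_image] at he
    obtain ⟨S, hS, rfl⟩ := he
    obtain ⟨f1, f2, f3⟩ := rr_facts hS
    exact (rr_iff hH f1 (inj_ph f2)).1 hS
  have hf1 := hfib fun S => (NdF Φ R W f U (sm z S) (la z S) ∧ GT h c S) ∧ GdR Φ r f U S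
  have hf2 := hfib fun S => NdF Φ R W f U (sm z S) (la z S) ∧ GT h c S
  have hf3 := hfib fun _ => True
  simp only [and_true, Finset.filter_true] at hf3
  rw [hf1, hf2, hf3, Finset.mul_sum, ← Finset.sum_sub_distrib]
  refine (Finset.abs_sum_le_sum_abs _ _).trans ?_
  have h3 : ∀ e ∈ T, |(((RR Φ X z H k V).filter fun S => ky Φ z H S = e ∧
        ((NdF Φ R W f U (sm z S) (la z S) ∧ GT h c S) ∧ GdR Φ r f U S)).card : ℝ) -
      cR r * (((RR Φ X z H k V).filter fun S => ky Φ z H S = e ∧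
        (NdF Φ R W f U (sm z S) (la z S) ∧ GT h c S)).card : ℝ)| ≤
      ε * (((RR Φ X z H k V).filter fun S => ky Φ z H S = e).card : ℝ) +
      B * (X / ((∏ p ∈ e.1, p : ℕ) : ℝ)) := by
    intro e he
    obtain ⟨S₀, J⟩ := e
    have hk' := hKP _ he
    exact per_T hε hR h c f hH hκ g1 g2 g3 g4 g5 hk' (hb_box h1 hH hz hκ hκz)
  refine (Finset.sum_le_sum h3).trans ?_
  rw [Finset.sum_add_distrib, ← Finset.mul_sum]
  refine add_le_add le_rfl ?_
  have hsub : T ⊆ (TT X) ×ˢ ((range N ×ˢ range 8).powerset.filter fun J => J.card ≤ k) := by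
    intro e he
    have hk' := hKP e he
    rw [hT, Finset.mem_image] at he
    obtain ⟨S, hS, rfl⟩ := he
    obtain ⟨f1, f2, f3⟩ := rr_facts hS
    rw [Finset.mem_product, Finset.mem_filter, Finset.mem_powerset]
    refine ⟨mem_TT (fun q hq => (hk'.cl q hq).prime) ?_, ?_, ?_⟩
    · refine le_trans ?_ f3
      exact Nat.le_of_dvd (Finset.prod_pos fun p hp => (f1 p hp).prime.pos)
        (Finset.prod_dvd_prod_of_subset _ _ _ (Finset.filter_subset _ _))
    · intro e he
      unfold ky at he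
      rw [Finset.mem_image] at he
      obtain ⟨q, hq, rfl⟩ := he
      have hqS := (Finset.mem_filter.1 hq).1
      have hq0 := (f1 q hqS).prime.pos
      have hqX : q ≤ X := by
        refine le_trans ?_ f3
        exact Nat.le_of_dvd (Finset.prod_pos fun p hp => (f1 p hp).prime.pos)
          (Finset.dvd_prod_of_mem _ hqS)
      unfold ph
      rw [Finset.mem_product, Finset.mem_range, Finset.mem_range]
      refine ⟨?_, ?_⟩
      · have h3 : ((jj H q : ℕ) : ℝ) < N := by
          refine lt_of_le_of_lt (Nat.floor_le (mul_nonneg (Nat.cast_nonneg _)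
            (Real.log_nonneg (by exact_mod_cast hq0)))) ?_
          refine lt_of_le_of_lt ?_ hN
          refine mul_le_mul_of_nonneg_left ?_ (Nat.cast_nonneg _)
          exact Real.log_le_log (by exact_mod_cast hq0) (by exact_mod_cast hqX)
        exact_mod_cast h3
      · show (if Φ.A q then 1 else 0) < 8
        split_ifs <;> norm_num
    · have := hk'.card
      omega
  refine (Finset.sum_le_sum_of_subset_of_nonneg hsub fun _ _ _ => by positivity).trans ?_
  rw [Finset.sum_product]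
  simp only [Finset.sum_const, nsmul_eq_mul]
  rw [← Finset.mul_sum]
  have h4 : ((((range N ×ˢ range 8).powerset.filter fun J => J.card ≤ k).card : ℕ) : ℝ) ≤
      (9 * N + 9 : ℝ) ^ k := by
    have h5 := card_sub (range N ×ˢ range 8) k
    rw [Finset.card_product, Finset.card_range, Finset.card_range] at h5
    calc ((((range N ×ˢ range 8).powerset.filter fun J => J.card ≤ k).card : ℕ) : ℝ) ≤
          (((N * 8 + 1) ^ k : ℕ) : ℝ) := by exact_mod_cast h5
      _ = (N * 8 + 1 : ℝ) ^ k := by push_cast; ring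
      _ ≤ _ := by
        apply pow_le_pow_left₀ (by positivity)
        have : (0 : ℝ) ≤ N := Nat.cast_nonneg _
        linarith
  have h5 : ∑ S ∈ TT X, B * (X / ((∏ p ∈ S, p : ℕ) : ℝ)) ≤ B * (X * (1 + Real.log X)) := by
    have h6 : ∀ S ∈ TT X, B * ((X : ℝ) / ((∏ p ∈ S, p : ℕ) : ℝ)) =
        B * X * (1 / ((∏ p ∈ S, p : ℕ) : ℝ)) := by
      intro S _
      ring
    rw [Finset.sum_congr rfl h6, ← Finset.mul_sum]
    have h7 := mul_le_mul_of_nonneg_left (harm_TT X) (mul_nonneg hB0 (Nat.cast_nonneg X))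
    refine h7.trans (le_of_eq ?_)
    ring
  have h6 : 0 ≤ ∑ S ∈ TT X, B * ((X : ℝ) / ((∏ p ∈ S, p : ℕ) : ℝ)) :=
    Finset.sum_nonneg fun _ _ => by positivity
  rw [mul_assoc]
  gcongr

end Q44.TJ
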