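import Pool.Agent.Q44.TJ.Asy
import Pool.Agent.Q283.GM.FEW

/-!
# The values of an additive function on the class
-/

set_option autoImplicit false

open scoped Classical
open Finset Filter

namespace Q44.TJ

open Q283.GM

variable {F : Type} [Fintype F] [AddCommGroup F]

theorem mem_SS {Φ : Fam} {X : ℕ} {S : Finset ℕ} :
    S ∈ SS Φ X ↔ (∀ p ∈ S, Φ.P p) ∧ ∏ p ∈ S, p ≤ X := by
  unfold SS
  rw [Finset.mem_filter, Finset.mem_powerset]
  refine ⟨fun h => h.2, fun h => ⟨fun p hp => ?_, h⟩⟩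
  have h1 : p ≤ ∏ q ∈ S, q := Nat.le_of_dvd (Finset.prod_pos fun q hq => (h.1 q hq).prime.pos)
    (Finset.dvd_prod_of_mem (fun q => q) hp)
  exact Finset.mem_range.2 (by omega)

/-- the upper bound for the number of the sets -/
theorem up_card {Φ : Fam} {δ : ℝ} (hΦ : Ok Φ δ) : ∃ C : ℝ, 0 < C ∧ ∀ X : ℕ, 3 ≤ X →
    ((SS Φ X).card : ℝ) ≤ C * (X * (Real.log X) ^ (-1 + δ : ℝ)) := by
  obtain ⟨C, hC1, hC⟩ := FF_card
  obtain ⟨D, hD⟩ := hΦ.up
  refine ⟨C * Real.exp D, by positivity, fun X hX => ?_⟩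
  have h1 := hC Φ.P (fun _ => True) X (fun _ => 1) 1 (fun p hp => hp.prime)
    (fun _ _ _ _ => trivial) (by omega) (fun _ => zero_le_one) zero_le_one
    (fun S _ => by simp)
  have e1 : FF Φ.P (fun _ => True) X = SS Φ X := by
    ext S
    rw [mem_FF' fun p hp => hp.prime, mem_SS]
    tauto
  rw [e1] at h1
  simp only [one_mul] at h1
  have hX3 : (3 : ℝ) ≤ X := by exact_mod_cast hX
  have hl : 0 < Real.log X := Real.log_pos (by linarith)
  have h2 := hD X hX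
  have h3 : Real.exp (∑ p ∈ (range (X + 1)).filter (fun p => Φ.P p), (1 : ℝ) / p) ≤
      Real.exp D * (Real.log X) ^ δ := by
    rw [Real.rpow_def_of_pos hl, ← Real.exp_add]
    apply Real.exp_le_exp.2
    linarith
  have hX0 : (0 : ℝ) ≤ X := Nat.cast_nonneg _
  have h4 : ((SS Φ X).card : ℝ) * Real.log X ≤ C * X * (Real.exp D * (Real.log X) ^ δ) :=
    h1.trans (mul_le_mul_of_nonneg_left h3 (by positivity))
  rw [Real.rpow_add hl, Real.rpow_neg_one]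
  rw [← le_div_iff₀ hl] at h4
  refine h4.trans (le_of_eq ?_)
  field_simp

/-- the comparison of the numbers at `X` and `X / P` -/
theorem div_card {Φ : Fam} {δ : ℝ} (hΦ : Ok Φ δ) {P : ℕ} (hP : 0 < P) :
    ∃ (c : ℝ) (X₀ : ℕ), 0 < c ∧ ∀ X : ℕ, X₀ ≤ X →
      c * ((SS Φ X).card : ℝ) ≤ ((SS Φ (X / P)).card : ℝ) := by
  obtain ⟨C, hC0, hC⟩ := up_card hΦ
  obtain ⟨c, X₀, hc, hlow⟩ := hΦ.low
  have hPr : (0 : ℝ) < P := by exact_mod_cast hP
  refine ⟨c / (2 * P * C), max (P * (X₀ + 3)) (2 * P), by positivity, fun X hX => ?_⟩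
  have hX1 : P * (X₀ + 3) ≤ X := (le_max_left _ _).trans hX
  have hX2 : 2 * P ≤ X := (le_max_right _ _).trans hX
  have hX3 : X₀ + 3 ≤ X / P := by
    rw [Nat.le_div_iff_mul_le hP, mul_comm]
    exact hX1
  have hX3' : 3 ≤ X := by
    have : X / P ≤ X := Nat.div_le_self _ _
    omega
  have h1 := hC X hX3'
  have h2 := hlow (X / P) (by omega)
  have h3 : (X : ℝ) / (2 * P) ≤ ((X / P : ℕ) : ℝ) := by
    have h4 : X < P * (X / P + 1) := by
      have := Nat.lt_mul_div_succ X hP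
      exact this
    have h5 : (X : ℝ) < P * (((X / P : ℕ) : ℝ) + 1) := by exact_mod_cast h4
    have h6 : (1 : ℝ) ≤ ((X / P : ℕ) : ℝ) := by
      have : 1 ≤ X / P := by omega
      exact_mod_cast this
    rw [div_le_iff₀ (by positivity)]
    nlinarith
  have hl1 : 0 < Real.log ((X / P : ℕ) : ℝ) := by
    apply Real.log_pos
    have : 3 ≤ X / P := by omega
    have : (3 : ℝ) ≤ ((X / P : ℕ) : ℝ) := by exact_mod_cast this
    linarith
  have hl2 : Real.log ((X / P : ℕ) : ℝ) ≤ Real.log X := by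
    apply Real.log_le_log
    · have : 0 < X / P := by omega
      exact_mod_cast this
    · exact_mod_cast Nat.div_le_self _ _
  have h4 : (Real.log X) ^ (-1 + δ : ℝ) ≤ (Real.log ((X / P : ℕ) : ℝ)) ^ (-1 + δ : ℝ) :=
    Real.rpow_le_rpow_of_nonpos hl1 hl2 (by linarith [hΦ.le])
  have h5 : 0 ≤ (Real.log X) ^ (-1 + δ : ℝ) := Real.rpow_nonneg (hl1.le.trans hl2) _
  have hX0 : (0 : ℝ) ≤ X := Nat.cast_nonneg _
  calc c / (2 * P * C) * ((SS Φ X).card : ℝ) ≤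
        c / (2 * P * C) * (C * (X * (Real.log X) ^ (-1 + δ : ℝ))) :=
        mul_le_mul_of_nonneg_left h1 (by positivity)
    _ = c * (X / (2 * P)) * (Real.log X) ^ (-1 + δ : ℝ) := by field_simp
    _ ≤ c * ((X / P : ℕ) : ℝ) * (Real.log ((X / P : ℕ) : ℝ)) ^ (-1 + δ : ℝ) := by
        refine mul_le_mul (mul_le_mul_of_nonneg_left h3 hc.le) h4 h5 (by positivity)
    _ ≤ _ := h2

/-- the values which occur -/
def Rch (Φ : Fam) (h : ℕ → F) (c : F) : Prop := ∃ S : Finset ℕ, (∀ p ∈ S, Φ.P p) ∧ GT h c S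

theorem sum_symm (hF : ∀ x : F, x + x = 0) (h : ℕ → F) (S T : Finset ℕ) :
    ∑ p ∈ symmDiff S T, h p = ∑ p ∈ S, h p + ∑ p ∈ T, h p := by
  have e0 : symmDiff S T = (S \ T) ∪ (T \ S) := rfl
  have e1 : ∑ p ∈ S, h p = ∑ p ∈ S \ T, h p + ∑ p ∈ S ∩ T, h p := by
    rw [← Finset.sum_union]
    · rw [Finset.sdiff_union_inter]
    · exact Finset.disjoint_sdiff_inter S T
  have e2 : ∑ p ∈ T, h p = ∑ p ∈ T \ S, h p + ∑ p ∈ S ∩ T, h p := by
    rw [Finset.inter_comm, ← Finset.sum_union]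
    · rw [Finset.sdiff_union_inter]
    · exact Finset.disjoint_sdiff_inter T S
  have e3 : ∑ p ∈ symmDiff S T, h p = ∑ p ∈ S \ T, h p + ∑ p ∈ T \ S, h p := by
    rw [e0, Finset.sum_union]
    rw [Finset.disjoint_left]
    intro p hp hq
    exact (Finset.mem_sdiff.1 hp).2 (Finset.mem_sdiff.1 hq).1
  rw [e1, e2, e3]
  have := hF (∑ p ∈ S ∩ T, h p)
  calc _ = ∑ p ∈ S \ T, h p + ∑ p ∈ T \ S, h p + 0 := by rw [add_zero]
    _ = _ := by rw [← this]; abel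

theorem Rch.add (hF : ∀ x : F, x + x = 0) {Φ : Fam} {h : ℕ → F} {c d : F} (hc : Rch Φ h c)
    (hd : Rch Φ h d) : Rch Φ h (c + d) := by
  obtain ⟨S, h1, h2⟩ := hc
  obtain ⟨T, h3, h4⟩ := hd
  refine ⟨symmDiff S T, fun p hp => ?_, ?_⟩
  · rcases Finset.mem_symmDiff.1 hp with h | h
    · exact h1 p h.1
    · exact h3 p h.1
  · unfold GT at *
    rw [sum_symm hF, h2, h4]

/-- **each value which occurs has a positive proportion** -/
theorem pos_prop (hF : ∀ x : F, x + x = 0) {Φ : Fam} {δ : ℝ} (hΦ : Ok Φ δ) (h : ℕ → F) {c₀ : F}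
    (hc₀ : Rch Φ h c₀) : ∃ (η : ℝ) (X₀ : ℕ), 0 < η ∧ ∀ X : ℕ, X₀ ≤ X →
      η * ((SS Φ X).card : ℝ) ≤ (((SS Φ X).filter fun S => GT h c₀ S).card : ℝ) := by
  have hex : ∀ g : F, ∃ S : Finset ℕ, Rch Φ h g → (∀ p ∈ S, Φ.P p) ∧ GT h g S := by
    intro g
    by_cases hg : Rch Φ h g
    · obtain ⟨S, hS⟩ := hg
      exact ⟨S, fun _ => hS⟩
    · exact ⟨∅, fun h' => absurd h' hg⟩
  choose Sg hSg using hex
  set Q : Finset ℕ := (univ.filter fun g : F => Rch Φ h g).biUnion Sg with hQ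
  have hQP : ∀ p ∈ Q, Φ.P p := by
    intro p hp
    obtain ⟨g, hg, hp⟩ := Finset.mem_biUnion.1 hp
    exact (hSg g (Finset.mem_filter.1 hg).2).1 p hp
  have hSQ : ∀ g, Rch Φ h g → Sg g ⊆ Q := by
    intro g hg
    exact Finset.subset_biUnion_of_mem Sg (Finset.mem_filter.2 ⟨Finset.mem_univ _, hg⟩)
  have hPpos : 0 < ∏ p ∈ Q, p := Finset.prod_pos fun p hp => (hQP p hp).prime.pos
  obtain ⟨c, X₀, hc, hdiv⟩ := div_card hΦ hPpos
  refine ⟨c / 2 ^ Q.card, X₀, by positivity, fun X hX => ?_⟩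
  -- the map
  set fn : Finset ℕ → Finset ℕ := fun S => (S \ Q) ∪ Sg (c₀ + ∑ p ∈ S \ Q, h p) with hfn
  have hval : ∀ S, (∀ p ∈ S, Φ.P p) → Rch Φ h (c₀ + ∑ p ∈ S \ Q, h p) := by
    intro S hS
    refine Rch.add hF hc₀ ⟨S \ Q, fun p hp => hS p (Finset.mem_sdiff.1 hp).1, rfl⟩
  have hsd : ∀ S, (∀ p ∈ S, Φ.P p) → fn S \ Q = S \ Q := by
    intro S hS
    have h1 := hSQ _ (hval S hS)
    ext p
    rw [hfn]
    simp only [Finset.mem_sdiff, Finset.mem_union]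
    constructor
    · rintro ⟨h2 | h2, h3⟩
      · exact h2
      · exact absurd (h1 h2) h3
    · rintro ⟨h2, h3⟩
      exact ⟨Or.inl ⟨h2, h3⟩, h3⟩
  have hmaps : ∀ S ∈ SS Φ (X / ∏ p ∈ Q, p), fn S ∈ (SS Φ X).filter fun S => GT h c₀ S := by
    intro S hS
    obtain ⟨h1, h2⟩ := mem_SS.1 hS
    have h3 := hval S h1
    obtain ⟨h4, h5⟩ := hSg _ h3
    have hdis : Disjoint (S \ Q) (Sg (c₀ + ∑ p ∈ S \ Q, h p)) := by
      rw [Finset.disjoint_left]
      intro p hp hp'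
      exact (Finset.mem_sdiff.1 hp).2 (hSQ _ h3 hp')
    rw [Finset.mem_filter, mem_SS]
    refine ⟨⟨fun p hp => ?_, ?_⟩, ?_⟩
    · rcases Finset.mem_union.1 hp with h6 | h6
      · exact h1 p (Finset.mem_sdiff.1 h6).1
      · exact h4 p h6
    · show ∏ p ∈ (S \ Q) ∪ _, p ≤ X
      rw [Finset.prod_union hdis]
      have h6 : ∏ p ∈ S \ Q, p ≤ ∏ p ∈ S, p :=
        Nat.le_of_dvd (Finset.prod_pos fun p hp => (h1 p hp).prime.pos)
          (Finset.prod_dvd_prod_of_subset _ _ _ Finset.sdiff_subset)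
      have h7 : ∏ p ∈ Sg (c₀ + ∑ p ∈ S \ Q, h p), p ≤ ∏ p ∈ Q, p :=
        Nat.le_of_dvd hPpos (Finset.prod_dvd_prod_of_subset _ _ _ (hSQ _ h3))
      calc _ ≤ (X / ∏ p ∈ Q, p) * ∏ p ∈ Q, p := Nat.mul_le_mul (h6.trans h2) h7
        _ ≤ X := Nat.div_mul_le_self _ _
    · show ∑ p ∈ (S \ Q) ∪ _, h p = c₀
      rw [Finset.sum_union hdis]
      have h6 : ∑ p ∈ Sg (c₀ + ∑ p ∈ S \ Q, h p), h p = c₀ + ∑ p ∈ S \ Q, h p := h5
      rw [h6]
      have h7 := hF (∑ p ∈ S \ Q, h p)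
      calc _ = (∑ p ∈ S \ Q, h p + ∑ p ∈ S \ Q, h p) + c₀ := by abel
        _ = c₀ := by rw [h7, zero_add]
  have hcard := Finset.card_le_mul_card_image_of_maps_to hmaps (2 ^ Q.card) (by
    intro b _
    rw [← Finset.card_powerset]
    refine Finset.card_le_card_of_injOn (fun S => S ∩ Q) ?_ ?_
    · intro S _
      exact Finset.mem_coe.2 (Finset.mem_powerset.2 Finset.inter_subset_right)
    · intro S hS T hT hST
      rw [Finset.mem_coe, Finset.mem_filter] at hS hT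
      have h1 := hsd S (mem_SS.1 hS.1).1
      have h2 := hsd T (mem_SS.1 hT.1).1
      rw [hS.2] at h1
      rw [hT.2] at h2
      have h3 : S \ Q = T \ Q := h1.symm.trans h2
      have h4 : S ∩ Q = T ∩ Q := hST
      rw [← Finset.sdiff_union_inter S Q, ← Finset.sdiff_union_inter T Q, h3, h4])
  have h1 := hdiv X hX
  have h2 : ((SS Φ (X / ∏ p ∈ Q, p)).card : ℝ) ≤
      2 ^ Q.card * (((SS Φ X).filter fun S => GT h c₀ S).card : ℝ) := by exact_mod_cast hcard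
  rw [div_mul_eq_mul_div, div_le_iff₀ (by positivity), mul_comm _ ((2 : ℝ) ^ Q.card)]
  exact h1.trans h2

/-- **the joint law of the coranks on the sets with a given value of the additive function** -/
theorem law_T (hF : ∀ x : F, x + x = 0) {Φ : Fam} {δ : ℝ} (hΦ : Ok Φ δ) {M : ℕ} (r : Fin M → ℕ)
    (f : Fin M → ℕ → ZMod 2) (W : Finset ℕ) (U : Fin M → Finset ℕ) (hW : OkU W U)
    (hHM : ∀ k l, k ≠ l → HM fun p => Φ.A p ∧ sep f U k l p ≠ 0) (h : ℕ → F) {c₀ : F}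
    (hc₀ : Rch Φ h c₀) :
    Tendsto (fun X : ℕ => (((SS Φ X).filter fun S => GT h c₀ S ∧ GdR Φ r f U S).card : ℝ) /
      (((SS Φ X).filter fun S => GT h c₀ S).card : ℝ)) atTop (nhds (cR r)) := by
  obtain ⟨η, X₀, hη, hlow⟩ := pos_prop hF hΦ h hc₀
  have h1 := t_DQT hΦ r f W U hW hHM h c₀
  rw [Metric.tendsto_nhds] at h1 ⊢
  intro ε hε
  obtain ⟨c, X₁, hc, hlow'⟩ := hΦ.low
  filter_upwards [h1 (η * ε) (by positivity), eventually_ge_atTop X₀, eventually_ge_atTop X₁,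
    eventually_ge_atTop 3] with X hX hX0 hX1 hX3
  have hX3' : (3 : ℝ) ≤ X := by exact_mod_cast hX3
  have hl : 0 < Real.log X := Real.log_pos (by linarith)
  have hN : (0 : ℝ) < ((SS Φ X).card : ℝ) := by
    refine lt_of_lt_of_le ?_ (hlow' X hX1)
    have := Real.rpow_pos_of_pos hl (-1 + δ)
    positivity
  have hB := hlow X hX0
  have hB0 : (0 : ℝ) < (((SS Φ X).filter fun S => GT h c₀ S).card : ℝ) :=
    lt_of_lt_of_le (by positivity) hB
  rw [Real.dist_eq, sub_zero, abs_div, abs_of_pos hN, div_lt_iff₀ hN] at hX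
  rw [Real.dist_eq]
  have e3 : (((SS Φ X).filter fun S => GT h c₀ S ∧ GdR Φ r f U S).card : ℝ) /
      (((SS Φ X).filter fun S => GT h c₀ S).card : ℝ) - cR r =
      ((((SS Φ X).filter fun S => GT h c₀ S ∧ GdR Φ r f U S).card : ℝ) -
        cR r * (((SS Φ X).filter fun S => GT h c₀ S).card : ℝ)) /
        (((SS Φ X).filter fun S => GT h c₀ S).card : ℝ) := by
    field_simp
  rw [e3, abs_div, abs_of_pos hB0, div_lt_iff₀ hB0]
  refine hX.trans_le ?_
  have := mul_le_mul_of_nonneg_left hB hε.le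
  linarith

end Q44.TJ
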